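import Pool.Agent.K7.H37.UK.Stm

set_option autoImplicit false

namespace Pool.Agent.K7.H56.UK

open Pool.Agent.K7.H37.UK

lemma adj_cases {p q : V} (h : Adj p q) :
    ∃ (k : Fin 3) (s : ℤ), (s = 1 ∨ s = -1) ∧ q k = p k + s ∧ ∀ i, i ≠ k → q i = p i := by
  unfold Adj at h
  simp only [abs_eq_max_neg] at h
  have h3 : (p 1 = q 1 ∧ p 2 = q 2 ∧ (q 0 - p 0 = 1 ∨ q 0 - p 0 = -1)) ∨
      (p 0 = q 0 ∧ p 2 = q 2 ∧ (q 1 - p 1 = 1 ∨ q 1 - p 1 = -1)) ∨
      (p 0 = q 0 ∧ p 1 = q 1 ∧ (q 2 - p 2 = 1 ∨ q 2 - p 2 = -1)) := by omega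
  rcases h3 with ⟨h1, h2, h3⟩ | ⟨h1, h2, h3⟩ | ⟨h1, h2, h3⟩
  · refine ⟨0, q 0 - p 0, h3, by ring, ?_⟩
    intro i hi
    fin_cases i
    · exact absurd rfl hi
    · exact h1.symm
    · exact h2.symm
  · refine ⟨1, q 1 - p 1, h3, by ring, ?_⟩
    intro i hi
    fin_cases i
    · exact h1.symm
    · exact absurd rfl hi
    · exact h2.symm
  · refine ⟨2, q 2 - p 2, h3, by ring, ?_⟩
    intro i hi
    fin_cases i
    · exact h1.symm
    · exact h2.symm
    · exact absurd rfl hi

lemma adj_update (v : V) (i : Fin 3) (s : ℤ) (hs : s = 1 ∨ s = -1) :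
    Adj v (Function.update v i (v i + s)) := by
  unfold Adj
  rcases hs with rfl | rfl <;> fin_cases i <;> simp [Function.update]

lemma lev_update (v : V) (i : Fin 3) (s : ℤ) :
    lev (Function.update v i (v i + s)) = lev v + s := by
  unfold lev
  fin_cases i <;> simp [Function.update] <;> ring

lemma lev_of {u v : V} (k : Fin 3) (s : ℤ) (hk : v k = u k + s) (h : ∀ i, i ≠ k → v i = u i) :
    lev v = lev u + s := by
  have : v = Function.update u k (u k + s) := by
    funext i
    by_cases hi : i = k
    · subst hi; simp [hk]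
    · simp [hi, h i hi]
  rw [this, lev_update]

lemma inBox_update {d : Fin 3 → ℕ} {v : V} (hv : InBox d v) (i : Fin 3) (z : ℤ) (h0 : 0 ≤ z)
    (h1 : z ≤ d i) : InBox d (Function.update v i z) := by
  intro j
  by_cases hj : j = i
  · subst hj; simp [h0, h1]
  · simp [hj]; exact hv j

lemma exists_ne_fin3 (k : Fin 3) : ∃ i : Fin 3, i ≠ k := by
  fin_cases k
  · exact ⟨1, by decide⟩
  · exact ⟨0, by decide⟩
  · exact ⟨0, by decide⟩

/-- job NBR, first part -/
theorem NBR : StNbr := by
  intro d hd u v hu hv huv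
  obtain ⟨k, s, hs, hk, hne⟩ := adj_cases huv
  have hl : lev v = lev u + s := lev_of k s hk hne
  rcases hs with rfl | rfl
  · by_cases h : ∃ i, i ≠ k ∧ 1 ≤ v i
    · obtain ⟨i, hi, h1⟩ := h
      left
      refine ⟨Function.update v i (v i + -1), ?_, adj_update v i (-1) (Or.inr rfl), ?_, ?_⟩
      · exact inBox_update hv i _ (by omega) (by have := (hv i).2; omega)
      · intro he
        have := congrFun he i
        rw [Function.update_self, ← hne i hi] at this
        omega
      · rw [lev_update, hl]; ring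
    · push Not at h
      right; left
      refine ⟨hl, ⟨k, fun i hi => ?_⟩, ?_⟩
      · have := h i hi
        have := (hv i).1
        omega
      · obtain ⟨i, hi⟩ := exists_ne_fin3 k
        have h0 : v i = 0 := by
          have := h i hi
          have := (hv i).1
          omega
        refine ⟨Function.update v i (v i + 1), ?_, adj_update v i 1 (Or.inl rfl), ?_, ?_⟩
        · exact inBox_update hv i _ (by omega) (by have := hd i; omega)
        · intro he
          have := congrFun he i
          rw [Function.update_self, ← hne i hi] at this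
          omega
        · rw [lev_update, hl]; ring
  · by_cases h : ∃ i, i ≠ k ∧ v i + 1 ≤ d i
    · obtain ⟨i, hi, h1⟩ := h
      left
      refine ⟨Function.update v i (v i + 1), ?_, adj_update v i 1 (Or.inl rfl), ?_, ?_⟩
      · exact inBox_update hv i _ (by have := (hv i).1; omega) h1
      · intro he
        have := congrFun he i
        rw [Function.update_self, ← hne i hi] at this
        omega
      · rw [lev_update, hl]; ring
    · push Not at h
      right; right
      refine ⟨by rw [hl]; ring, ⟨k, fun i hi => ?_⟩, ?_⟩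
      · have := h i hi
        have := (hv i).2
        omega
      · obtain ⟨i, hi⟩ := exists_ne_fin3 k
        have h0 : v i = d i := by
          have := h i hi
          have := (hv i).2
          omega
        refine ⟨Function.update v i (v i + -1), ?_, adj_update v i (-1) (Or.inr rfl), ?_, ?_⟩
        · exact inBox_update hv i _ (by have := hd i; omega) (by omega)
        · intro he
          have := congrFun he i
          rw [Function.update_self, ← hne i hi] at this
          omega
        · rw [lev_update, hl]; ring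

/-- job NBR, second part -/
theorem UNIQ : StUniq := by
  intro d hd a b v ha hb hv hA hB hla hlb
  unfold Pool.Agent.K7.H37.UK.Bot at hA
  unfold Pool.Agent.K7.H37.UK.Top at hB
  obtain ⟨j, hj⟩ := hA
  obtain ⟨j', hj'⟩ := hB
  have d0 := hd 0
  have d1 := hd 1
  have d2 := hd 2
  have a0 := ha 0
  have a1 := ha 1
  have a2 := ha 2
  have b0 := hb 0
  have b1 := hb 1
  have b2 := hb 2
  have v0 := hv 0
  have v1 := hv 1
  have v2 := hv 2
  unfold lev at hla hlb
  have ja0 := hj 0
  have ja1 := hj 1
  have ja2 := hj 2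
  have jb0 := hj' 0
  have jb1 := hj' 1
  have jb2 := hj' 2
  constructor
  · rintro ⟨j'', hj''⟩
    have jv0 := hj'' 0
    have jv1 := hj'' 1
    have jv2 := hj'' 2
    have key : v 0 = a 0 ∧ v 1 = a 1 ∧ v 2 = a 2 := by
      clear hj hj' hj'' hd ha hb hv
      fin_cases j <;> fin_cases j' <;> fin_cases j'' <;>
        simp at ja0 ja1 ja2 jb0 jb1 jb2 jv0 jv1 jv2 <;> omega
    funext i
    fin_cases i
    · exact key.1
    · exact key.2.1
    · exact key.2.2
  · rintro ⟨j'', hj''⟩
    have jv0 := hj'' 0
    have jv1 := hj'' 1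
    have jv2 := hj'' 2
    have key : v 0 = b 0 ∧ v 1 = b 1 ∧ v 2 = b 2 := by
      clear hj hj' hj'' hd ha hb hv
      fin_cases j <;> fin_cases j' <;> fin_cases j'' <;>
        simp at ja0 ja1 ja2 jb0 jb1 jb2 jv0 jv1 jv2 <;> omega
    funext i
    fin_cases i
    · exact key.1
    · exact key.2.1
    · exact key.2.2

end Pool.Agent.K7.H56.UK
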