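import Pool.Agent.K7.H56.UK.NBR

set_option autoImplicit false

namespace Pool.Agent.K7.H56.UK

open Pool.Agent.K7.H37.UK

lemma seg_coord {a b : V} {x : R3} (h : x ∈ segment ℝ (pt a) (pt b)) :
    ∃ t : ℝ, 0 ≤ t ∧ t ≤ 1 ∧ ∀ i, x i = a i + t * ((b i : ℝ) - a i) := by
  obtain ⟨u, t, hu, ht, hut, rfl⟩ := h
  refine ⟨t, ht, by linarith, fun i => ?_⟩
  simp only [pt, Pi.add_apply, Pi.smul_apply, smul_eq_mul]
  have : u = 1 - t := by linarith
  rw [this]; ring

lemma end_of {a b : V} {x : R3} {t : ℝ} (hx : ∀ i, x i = a i + t * ((b i : ℝ) - a i))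
    (ht : t = 0 ∨ t = 1) : x = pt a ∨ x = pt b := by
  rcases ht with rfl | rfl
  · left
    funext i
    rw [hx i, pt]; ring
  · right
    funext i
    rw [hx i, pt]; ring

/-- an interior point of an edge in the direction `k` has a non-integral coordinate -/
lemma nonint {a b : V} {x : R3} {t : ℝ} {k : Fin 3} {s : ℤ} (hs : s = 1 ∨ s = -1)
    (hk : b k = a k + s) (hx : ∀ i, x i = a i + t * ((b i : ℝ) - a i)) (h0 : 0 < t) (h1 : t < 1)
    (z : ℤ) : x k ≠ z := by
  intro h
  rw [hx k, hk] at h
  push_cast at h
  rcases hs with rfl | rfl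
  · have h2 : (0 : ℝ) < ((z - a k : ℤ) : ℝ) := by push_cast at h ⊢; linarith
    have h3 : ((z - a k : ℤ) : ℝ) < 1 := by push_cast at h ⊢; linarith
    have h4 : 0 < z - a k := by exact_mod_cast h2
    have h5 : z - a k < 1 := by exact_mod_cast h3
    omega
  · have h2 : (0 : ℝ) < ((a k - z : ℤ) : ℝ) := by push_cast at h ⊢; linarith
    have h3 : ((a k - z : ℤ) : ℝ) < 1 := by push_cast at h ⊢; linarith
    have h4 : 0 < a k - z := by exact_mod_cast h2
    have h5 : a k - z < 1 := by exact_mod_cast h3
    omega

/-- job SIMP -/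
theorem SIMP : StSimp := by
  intro a b c e hab hce x hx hx'
  obtain ⟨k, s, hs, hk, hne⟩ := adj_cases hab
  obtain ⟨k', s', hs', hk', hne'⟩ := adj_cases hce
  obtain ⟨t, ht0, ht1, hxt⟩ := seg_coord hx
  obtain ⟨t', ht0', ht1', hxt'⟩ := seg_coord hx'
  by_cases ht : t = 0 ∨ t = 1
  · have h1 := end_of hxt ht
    have h2 : t' = 0 ∨ t' = 1 := by
      by_contra hcon
      push Not at hcon
      have h0 : 0 < t' := lt_of_le_of_ne ht0' (Ne.symm hcon.1)
      have h1' : t' < 1 := lt_of_le_of_ne ht1' hcon.2
      rcases h1 with h1 | h1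
      · exact nonint hs' hk' hxt' h0 h1' (a k') (by rw [h1, pt])
      · exact nonint hs' hk' hxt' h0 h1' (b k') (by rw [h1, pt])
    exact Or.inr (Or.inr ⟨h1, end_of hxt' h2⟩)
  · push Not at ht
    have h0 : 0 < t := lt_of_le_of_ne ht0 (Ne.symm ht.1)
    have h1 : t < 1 := lt_of_le_of_ne ht1 ht.2
    have hkk : k = k' := by
      by_contra hcon
      have h2 : x k = c k := by
        rw [hxt' k, hne' k hcon]; ring
      exact nonint hs hk hxt h0 h1 (c k) h2
    subst hkk
    have hac : ∀ i, i ≠ k → a i = c i := by
      intro i hi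
      have h2 : x i = a i := by rw [hxt i, hne i hi]; ring
      have h3 : x i = c i := by rw [hxt' i, hne' i hi]; ring
      have h4 : (a i : ℝ) = c i := by rw [← h2, h3]
      exact_mod_cast h4
    have hE : (a k : ℝ) + t * s = c k + t' * s' := by
      have h2 := hxt k
      have h3 := hxt' k
      rw [hk] at h2
      rw [hk'] at h3
      push_cast at h2 h3
      rw [h2] at h3
      linarith
    have hcase : (a k = c k ∧ s = s') ∨ (a k = c k + s' ∧ c k = a k + s) := by
      rcases hs with rfl | rfl <;> rcases hs' with rfl | rfl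
      · left
        refine ⟨?_, rfl⟩
        push_cast at hE
        have h2 : ((a k - c k : ℤ) : ℝ) < 1 := by push_cast; linarith
        have h3 : (-1 : ℝ) < ((a k - c k : ℤ) : ℝ) := by push_cast; linarith
        have h4 : a k - c k < 1 := by exact_mod_cast h2
        have h5 : -1 < a k - c k := by exact_mod_cast h3
        omega
      · right
        push_cast at hE
        have h2 : ((c k - a k : ℤ) : ℝ) < 2 := by push_cast; linarith
        have h3 : (0 : ℝ) < ((c k - a k : ℤ) : ℝ) := by push_cast; linarith
        have h4 : c k - a k < 2 := by exact_mod_cast h2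
        have h5 : 0 < c k - a k := by exact_mod_cast h3
        omega
      · right
        push_cast at hE
        have h2 : ((a k - c k : ℤ) : ℝ) < 2 := by push_cast; linarith
        have h3 : (0 : ℝ) < ((a k - c k : ℤ) : ℝ) := by push_cast; linarith
        have h4 : a k - c k < 2 := by exact_mod_cast h2
        have h5 : 0 < a k - c k := by exact_mod_cast h3
        omega
      · left
        refine ⟨?_, rfl⟩
        push_cast at hE
        have h2 : ((a k - c k : ℤ) : ℝ) < 1 := by push_cast; linarith
        have h3 : (-1 : ℝ) < ((a k - c k : ℤ) : ℝ) := by push_cast; linarith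
        have h4 : a k - c k < 1 := by exact_mod_cast h2
        have h5 : -1 < a k - c k := by exact_mod_cast h3
        omega
    rcases hcase with ⟨h2, h3⟩ | ⟨h2, h3⟩
    · left
      constructor
      · funext i
        by_cases hi : i = k
        · rw [hi, h2]
        · exact hac i hi
      · funext i
        by_cases hi : i = k
        · rw [hi, hk, hk', h2, h3]
        · rw [hne i hi, hne' i hi]; exact hac i hi
    · right; left
      constructor
      · funext i
        by_cases hi : i = k
        · rw [hi, hk', h2]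
        · rw [hne' i hi]; exact hac i hi
      · funext i
        by_cases hi : i = k
        · rw [hi, hk, h3]
        · rw [hne i hi]; exact hac i hi

end Pool.Agent.K7.H56.UK
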